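import Mathlib
import Pool.Agent.Q92.DZ.Fin

/-!
# Quotients of Dedekind zeta functions at double zeros, for arbitrary Galois groups

`Pool.Agent.H541R3.ART.ArtinData G s₀` is a family of functions with the formal properties of the
Artin L-functions of a Galois extension `E/K` with group `G` near a point `s₀ ≠ 1`: functions
`L χ` for the irreducible characters `χ` of `G`, meromorphic and not identically zero near `s₀`
(Brauer), and `Lin H ψ` for the linear characters `ψ` of the subgroups `H`, without pole at `s₀`
(Artin reciprocity and Hecke), such that `Lin H ψ` is the product of the `L χ ^ ⟨χ|_H, ψ⟩`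
(induction). In particular `Lin H 1` stands for the Dedekind zeta function of the fixed field of
`H`, and `Lin H ψ` for a Hecke L-function of this field.

Proof. The orders at `s₀` give a Heilbronn function `θ` of degree at most two on `G`. If the
restriction of `θ` to the subgroup `M` contains a linear character, then it is a sum of linear
characters (`Pool.Agent.H302R2.IsHeilbronn.two_contains_one`: a parity theorem, proved with
hyperelementary subgroups, excludes the multiplicity one if the determinant is trivial).
-/

set_option autoImplicit false

open Pool.Agent.H541R3.ART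

/-- Let `G`, an arbitrary finite group, be the Galois group of `E/K`, and let the order of `ζ_E` at
`s₀` be at most two. Then for all subgroups `U ≤ M` of `G` the order of `ζ_{E ^ M}` at `s₀` is at
most that of `ζ_{E ^ U}`, i.e. the quotient `ζ_{E ^ U} / ζ_{E ^ M}` has no pole at `s₀`. More
generally this holds for the L-functions of a linear character `ρ` of `M` and of its restriction to
`U`. -/
theorem Pool.Agent.Results.MP_9fc8a5_nt.DoubleZeros.result
    (G : Type) [Group G] [Finite G] (s₀ : ℂ) (A : ArtinData G s₀) (r : ℕ)
    (hr : meromorphicOrderAt (A.Lin ⊥ 1) s₀ = (r : WithTop ℤ)) (hr2 : r ≤ 2)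
    (U M : Subgroup G) (hUM : U ≤ M) (ρ : M →* ℂˣ) :
    meromorphicOrderAt (A.Lin M ρ) s₀
      ≤ meromorphicOrderAt (A.Lin U (ρ.comp (Subgroup.inclusion hUM))) s₀ :=
  Pool.Agent.Q92.DZ.quot_le A hr2 hr U M hUM ρ
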