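import Mathlib
import Pool.Agent.Q18.LF.Split2

/-!
# Quotients of Dedekind zeta functions and prime ideal counts on one sequence of windows

Let `F` and `M` be number fields (for instance `F ⊆ M`, not necessarily Galois), let `π_F(x)` be the number of prime
ideals of `F` of norm at most `x` and `Π_F(x) = ∑_{N(𝔭)^k ≤ x} 1/k`. If `π_M(x) - π_F(x) = O(x^c)` for all `x`, then
`ζ_M/ζ_F` is holomorphic and nonzero for `Re s > c`. We show that it suffices to have the bound on one sequence of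
windows, which may be as sparse as we like, and that one-sided bounds are enough if the real zeros or the real poles
are known. Let `c ≥ 1/2` and `0 < δ < 1`, and consider arbitrarily large `X` with one of the following properties for
all `x ∈ [X^{1-δ}, X]`.

1. `|π_M(x) - π_F(x)| < x^c`: then `ζ_M/ζ_F` has neither zeros nor poles with `Re s > c`.
2. `π_F(x) - π_M(x) < x^c`: the same if `ζ_M/ζ_F` has no real poles `> c` (e.g. if `F = ℚ`).
3. `π_M(x) - π_F(x) < x^c`: the same if `ζ_M/ζ_F` has no real zeros `> c`.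
4. The same for `Π` and any `c ≥ 0`.
5. Let `E/K` be a Galois extension and `π_K(x) - π_E(x) < x^c` (one-sided and without any hypothesis on real zeros or
   poles). Then at every `s ≠ 1` with `Re s > c` the zeta functions of *all* intermediate fields have the same order:
   `ζ_M/ζ_F` is holomorphic and nonzero there for all `K ⊆ F ⊆ M ⊆ E`.

In 5., if the Galois closure of `M/K` is `E`, the only information used is that in the windows there are not much fewer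
prime ideals in `E` than in `K`, i.e. (up to `O(√x)`) that the prime ideals of `K` which split completely in `M` are not
much fewer than expected.

The proof: a localized oscillation theorem for the logarithm of `ζ_M/ζ_F`, and for 5. Heilbronn's argument: if
`ζ_E/ζ_K` has order zero at `s₀` then the Heilbronn character `θ` at `s₀` satisfies `⟨θ, 1⟩ = θ(1)` and `|θ(g)| ≤ θ(1)`,
so that it is constant.
-/

set_option autoImplicit false

namespace Pool.Agent.Results.MP_9fc8a5_nt.PrimeCountWindows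

open Pool.Agent.Q18.LF Pool.Agent.H541R3.ART

/-- `P x` holds for all `x ∈ [X^{1-δ}, X]`, for arbitrarily large `X` -/
def OnWindows (δ : ℝ) (P : ℝ → Prop) : Prop :=
  ∀ X₀ : ℝ, ∃ X : ℝ, X₀ ≤ X ∧ ∀ x : ℝ, X ^ (1 - δ) ≤ x → x ≤ X → P x

/-- `Z` has neither zeros nor poles with `Re s > c` -/
def Free (c : ℝ) (Z : ℂ → ℂ) : Prop := ∀ s : ℂ, c < s.re → meromorphicOrderAt Z s = 0

/-- the three criteria for `Z` in terms of the counting functions `A` and `B` -/
def Criteria (c δ : ℝ) (Z : ℂ → ℂ) (A B : ℝ → ℝ) : Prop :=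
  (OnWindows δ (fun x => |A x - B x| < x ^ c) → Free c Z) ∧
  ((∀ β : ℝ, c < β → 0 ≤ meromorphicOrderAt Z (β : ℂ)) → OnWindows δ (fun x => B x - A x < x ^ c) → Free c Z) ∧
  ((∀ β : ℝ, c < β → meromorphicOrderAt Z (β : ℂ) ≤ 0) → OnWindows δ (fun x => A x - B x < x ^ c) → Free c Z)

/-- the zeta functions `Lin H 1` of all intermediate fields of `E/K` have the same order at `s` -/
def SameOrder (K E : Type) [Field K] [Field E] [Algebra K E] (ZK : ℂ → ℂ) (L : ((E ≃ₐ[K] E) → ℂ) → ℂ → ℂ) (s : ℂ) :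
    Prop :=
  ∀ A : ArtinData (E ≃ₐ[K] E) s, A.L = L → ∀ H : Subgroup (E ≃ₐ[K] E),
    meromorphicOrderAt (A.Lin H 1) s = meromorphicOrderAt ZK s

/-- **Quotients of Dedekind zeta functions from prime ideal counts on sparse windows**, for two arbitrary number
fields, and for all intermediate fields of a Galois extension `E/K`. -/
theorem result (c δ : ℝ) (hδ : 0 < δ) (hδ1 : δ < 1) :
    (∀ (F M : Type) [Field F] [NumberField F] [Field M] [NumberField M] (ZF ZM : ℂ → ℂ), IsZeta F ZF → IsZeta M ZM →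
      (1 / 2 ≤ c → Criteria c δ (ZM * ZF⁻¹) (fun x => piP M x) (fun x => piP F x)) ∧
      (0 ≤ c → Criteria c δ (ZM * ZF⁻¹) (PiP M) (PiP F))) ∧
    (∀ (K E : Type) [Field K] [NumberField K] [Field E] [NumberField E] [Algebra K E] [IsGalois K E]
      (ZE ZK : ℂ → ℂ) (L : ((E ≃ₐ[K] E) → ℂ) → ℂ → ℂ), ArtinFam K E ZE ZK L →
      ((1 / 2 ≤ c ∧ OnWindows δ (fun x => (piP K x : ℝ) - piP E x < x ^ c)) ∨
        (0 ≤ c ∧ OnWindows δ (fun x => PiP K x - PiP E x < x ^ c))) →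
      ∀ s : ℂ, c < s.re → s ≠ 1 → SameOrder K E ZK L s) := by
  refine ⟨fun F M _ _ _ _ ZF ZM hF hM => ⟨fun hc => ⟨fun hX s hs => ?_, fun hr hX s hs => ?_, fun hr hX s hs => ?_⟩,
    fun hc => ⟨fun hX s hs => ?_, fun hr hX s hs => ?_, fun hr hX s hs => ?_⟩⟩, fun K E _ _ _ _ _ _ ZE ZK L h hX s hs hs1 A hA H => ?_⟩
  · by_contra h0
    obtain ⟨a, h1, h2⟩ := two_abs hM hF (by linarith : (0 : ℝ) ≤ c) hδ ⟨s, hs, h0⟩
    obtain ⟨X₀, hX₀⟩ := Filter.eventually_atTop.1 (to_primes_abs M F hc h1 hδ1 h2)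
    obtain ⟨X, hX1, hX2⟩ := hX X₀
    obtain ⟨x, h3, h4, h5⟩ := hX₀ X hX1
    exact absurd (hX2 x h3 h4) (not_lt.2 h5)
  · by_contra h0
    obtain ⟨a, h1, h2⟩ := two_neg hM hF (by linarith : (0 : ℝ) ≤ c) hδ hr ⟨s, hs, h0⟩
    obtain ⟨X₀, hX₀⟩ := Filter.eventually_atTop.1 (to_primes hc h1 hδ hδ1 h2)
    obtain ⟨X, hX1, hX2⟩ := hX X₀
    obtain ⟨x, h3, h4, h5⟩ := hX₀ X hX1
    exact absurd (hX2 x h3 h4) (not_lt.2 h5)
  · by_contra h0
    obtain ⟨a, h1, h2⟩ := two_pos hM hF (by linarith : (0 : ℝ) ≤ c) hδ hr ⟨s, hs, h0⟩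
    obtain ⟨X₀, hX₀⟩ := Filter.eventually_atTop.1 (to_primes hc h1 hδ hδ1 h2)
    obtain ⟨X, hX1, hX2⟩ := hX X₀
    obtain ⟨x, h3, h4, h5⟩ := hX₀ X hX1
    exact absurd (hX2 x h3 h4) (not_lt.2 h5)
  · by_contra h0
    obtain ⟨a, h1, h2⟩ := two_abs hM hF hc hδ ⟨s, hs, h0⟩
    obtain ⟨X₀, hX₀⟩ := Filter.eventually_atTop.1 h2
    obtain ⟨X, hX1, hX2⟩ := hX X₀
    obtain ⟨x, h3, h4, h5, h6⟩ := hX₀ X hX1
    exact absurd (hX2 x h3 h4) (not_lt.2 ((Real.rpow_le_rpow_of_exponent_le h5 h1.le).trans h6))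
  · by_contra h0
    obtain ⟨a, h1, h2⟩ := two_neg hM hF hc hδ hr ⟨s, hs, h0⟩
    obtain ⟨X₀, hX₀⟩ := Filter.eventually_atTop.1 h2
    obtain ⟨X, hX1, hX2⟩ := hX X₀
    obtain ⟨x, h3, h4, h5, h6⟩ := hX₀ X hX1
    exact absurd (hX2 x h3 h4) (not_lt.2 ((Real.rpow_le_rpow_of_exponent_le h5 h1.le).trans h6))
  · by_contra h0
    obtain ⟨a, h1, h2⟩ := two_pos hM hF hc hδ hr ⟨s, hs, h0⟩
    obtain ⟨X₀, hX₀⟩ := Filter.eventually_atTop.1 h2
    obtain ⟨X, hX1, hX2⟩ := hX X₀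
    obtain ⟨x, h3, h4, h5, h6⟩ := hX₀ X hX1
    exact absurd (hX2 x h3 h4) (not_lt.2 ((Real.rpow_le_rpow_of_exponent_le h5 h1.le).trans h6))
  · refine h.sub hs1 ?_ A hA H
    by_contra h0
    rcases hX with ⟨hc, hX⟩ | ⟨hc, hX⟩
    · obtain ⟨a, h1, h2⟩ := two_neg h.top h.bot (by linarith : (0 : ℝ) ≤ c) hδ (fun x _ => h.real x) ⟨s, hs, h0⟩
      obtain ⟨X₀, hX₀⟩ := Filter.eventually_atTop.1 (to_primes hc h1 hδ hδ1 h2)
      obtain ⟨X, hX1, hX2⟩ := hX X₀
      obtain ⟨x, h3, h4, h5⟩ := hX₀ X hX1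
      exact absurd (hX2 x h3 h4) (not_lt.2 h5)
    · obtain ⟨a, h1, h2⟩ := two_neg h.top h.bot hc hδ (fun x _ => h.real x) ⟨s, hs, h0⟩
      obtain ⟨X₀, hX₀⟩ := Filter.eventually_atTop.1 h2
      obtain ⟨X, hX1, hX2⟩ := hX X₀
      obtain ⟨x, h3, h4, h5, h6⟩ := hX₀ X hX1
      exact absurd (hX2 x h3 h4) (not_lt.2 ((Real.rpow_le_rpow_of_exponent_le h5 h1.le).trans h6))

end Pool.Agent.Results.MP_9fc8a5_nt.PrimeCountWindows
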