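import Mathlib
import Pool.Agent.H302R6.DedB
import Pool.Agent.H302R6.Prod
import Pool.Agent.H541R3.ART.Core

/-!
# Quotients of Dedekind zeta functions: extensions which become solvable after a disjoint base change

`Pool.Agent.H541R3.ART.ArtinData G s₀` is a family of functions with the formal properties of the
Artin L-functions of a Galois extension `E/K` with group `G` near a point `s₀ ≠ 1`: functions
`L χ` for the irreducible characters `χ` of `G`, meromorphic and not identically zero near `s₀`
(Brauer), and `Lin H ψ` for the linear characters `ψ` of the subgroups `H`, without pole at `s₀`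
(Artin reciprocity and Hecke), such that `Lin H ψ` is the product of the `L χ ^ ⟨χ|_H, ψ⟩`
(induction). In particular `Lin H 1` stands for the Dedekind zeta function of the fixed field of
`H`, and `Lin H ψ` for a Hecke L-function of this field.

Uchida and van der Waall proved that `ζ_L / ζ_K` is entire if the Galois closure of `L/K` is
solvable. Here it is enough that `L/K` becomes solvable after a base change to some finite Galois
extension `F/K`, with any Galois group, such that `L ∩ F = K`. More generally `ζ_L / ζ_K` is entire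
if `L` is reached from `K` by a tower whose steps are Galois extensions or of this kind. For
example all the steps without proper intermediate fields for which the Galois group of the closure
has a nontrivial abelian normal subgroup are of this kind (primitive groups of affine type, such as
`AGL_n(𝔽_q)` in degree `q ^ n`).
-/

set_option autoImplicit false

namespace Pool.Agent.Results.MP_9fc8a5_nt.SolvableAfterBaseChange

open Pool.Agent.H541R3.ART Pool.Agent.H302R2 Pool.Agent.H302R5 Pool.Agent.H302R6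

/-- `Tower U M`: the fixed field `E ^ U` is reached from the fixed field `E ^ M` by finitely many
steps `E ^ V / E ^ M'` (`V ≤ M'`) of the following two kinds.
* `galois`: `E ^ V / E ^ M'` is a Galois extension.
* `solvable`: there are normal subgroups `N` and `C` of `M'`, `C ≤ V`, `V N = M'`, with
  `N / (C ∩ N)` solvable; i.e. there is a Galois extension `F = E ^ N` of `E ^ M'` with
  `E ^ V ∩ F = E ^ M'` such that the compositum of `F` and a Galois extension `E ^ C` of `E ^ M'`
  containing `E ^ V` is solvable over `F`. -/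
inductive Tower {G : Type} [Group G] : Subgroup G → Subgroup G → Prop
  | refl (U : Subgroup G) : Tower U U
  | galois {U V M : Subgroup G} : Tower U V → V ≤ M → (V.subgroupOf M).Normal → Tower U M
  | solvable {U V M : Subgroup G} (N C : Subgroup M) [N.Normal] [C.Normal] : Tower U V → V ≤ M →
      C ≤ V.subgroupOf M → V.subgroupOf M ⊔ N = ⊤ → Group.IsSolvable (N ⧸ C.subgroupOf N) →
      Tower U M

section steps

variable {M : Type} [Group M] [Fintype M] {θ : M → ℂ}

lemma push_sub (hθ : IsHeilbronn θ) (C U : Subgroup M) [C.Normal] (hCU : C ≤ U) {b : ℕ}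
    (hb : ∑ᶠ g : U, θ g = b * Nat.card U) :
    ∑ᶠ y : U.map (QuotientGroup.mk' C), push (QuotientGroup.mk' C) θ y
      = b * Nat.card (U.map (QuotientGroup.mk' C)) := by
  apply push_mult (QuotientGroup.mk'_surjective C)
  have h1 : (U.map (QuotientGroup.mk' C)).comap (QuotientGroup.mk' C) = U := by
    rw [Subgroup.comap_map_eq_self]
    rw [QuotientGroup.ker_mk']
    exact hCU
  rw [h1]
  exact hb

lemma top_sum (f : M → ℂ) : ∑ᶠ g : (⊤ : Subgroup M), f g = ∑ᶠ g : M, f g :=
  finsum_eq_of_bijective (fun g : (⊤ : Subgroup M) => (g : M))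
    Subgroup.topEquiv.bijective (fun g => rfl)

lemma top_card : Nat.card (⊤ : Subgroup M) = Nat.card M :=
  Nat.card_congr Subgroup.topEquiv.toEquiv

lemma step_solvable (hθ : IsHeilbronn θ) (U N C : Subgroup M) [N.Normal] [C.Normal] (hCU : C ≤ U)
    (hsup : U ⊔ N = ⊤) (hsol : Group.IsSolvable (N ⧸ C.subgroupOf N)) {a b : ℕ}
    (ha : ∑ᶠ g : M, θ g = a * Nat.card M) (hb : ∑ᶠ g : U, θ g = b * Nat.card U) : a ≤ b := by
  have hπ := QuotientGroup.mk'_surjective C
  have h1 := push_sub hθ C U hCU hb
  have h2 := push_sub hθ C ⊤ le_top (b := a) (by rw [top_sum, top_card, ha])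
  have h3 : (⊤ : Subgroup M).map (QuotientGroup.mk' C)
      = U.map (QuotientGroup.mk' C) ⊔ N.map (QuotientGroup.mk' C) := by
    rw [← Subgroup.map_sup, hsup]
  rw [h3] at h2
  have hN : (N.map (QuotientGroup.mk' C)).Normal := Subgroup.Normal.map inferInstance _ hπ
  let φ : N ⧸ C.subgroupOf N →* N.map (QuotientGroup.mk' C) :=
    QuotientGroup.lift _ ((QuotientGroup.mk' C).subgroupMap N) (by
      intro x hx
      rw [Subgroup.mem_subgroupOf] at hx
      apply Subtype.ext
      change QuotientGroup.mk' C (x : M) = 1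
      rw [← MonoidHom.mem_ker, QuotientGroup.ker_mk']
      exact hx)
  have hφ : Function.Surjective φ := by
    intro y
    obtain ⟨x, hx⟩ := (QuotientGroup.mk' C).subgroupMap_surjective N y
    exact ⟨QuotientGroup.mk x, hx⟩
  have hs : Group.IsSolvable (N.map (QuotientGroup.mk' C)) := by
    exact Group.isSolvable_of_surjective hφ
  exact ded_sol (push_isHeilbronn hπ hθ) (N.map (QuotientGroup.mk' C)) _ hs h1 h2

lemma step_galois (hθ : IsHeilbronn θ) (U : Subgroup M) [U.Normal] {a b : ℕ}
    (ha : ∑ᶠ g : M, θ g = a * Nat.card M) (hb : ∑ᶠ g : U, θ g = b * Nat.card U) : a ≤ b := by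
  have : Fintype (M ⧸ U) := Fintype.ofFinite _
  have hπ := QuotientGroup.mk'_surjective U
  have h1 := push_sub hθ U U le_rfl hb
  have h2 := push_sub hθ U ⊤ le_top (b := a) (by rw [top_sum, top_card, ha])
  have h3 : U.map (QuotientGroup.mk' U) = ⊥ := by
    rw [Subgroup.map_eq_bot_iff, QuotientGroup.ker_mk']
  have h4 : (⊤ : Subgroup M).map (QuotientGroup.mk' U) = ⊤ :=
    Subgroup.map_top_of_surjective _ hπ
  rw [h3] at h1
  rw [h4, top_sum, top_card, finsum_eq_sum_of_fintype] at h2
  have h5 : push (QuotientGroup.mk' U) θ 1 = b := by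
    have : Fintype (⊥ : Subgroup (M ⧸ U)) := Fintype.ofFinite _
    rw [finsum_eq_sum_of_fintype, Fintype.sum_eq_single (1 : (⊥ : Subgroup (M ⧸ U)))] at h1
    · simpa using h1
    · intro x hx
      exact absurd (Subsingleton.elim x 1) hx
  have hp := push_isHeilbronn hπ hθ
  have h6 : ‖∑ q : M ⧸ U, push (QuotientGroup.mk' U) θ q‖ ≤ ∑ q : M ⧸ U, (b : ℝ) := by
    refine norm_sum_le_of_le _ fun q _ => ?_
    have := hp.norm_le q
    rwa [h5, Complex.natCast_re] at this
  rw [h2, norm_mul, Complex.norm_natCast, Complex.norm_natCast, Finset.sum_const,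
    Finset.card_univ, nsmul_eq_mul, ← Nat.card_eq_fintype_card, mul_comm] at h6
  have h7 : (0 : ℝ) < Nat.card (M ⧸ U) := by exact_mod_cast Nat.card_pos
  exact_mod_cast le_of_mul_le_mul_left h6 h7

end steps

variable {G : Type} [Group G] [Finite G]

lemma Tower.le {U M : Subgroup G} (h : Tower U M) : U ≤ M := by
  induction h with
  | refl => exact le_rfl
  | galois _ h2 _ ih => exact ih.trans h2
  | solvable _ _ _ h2 _ _ _ ih => exact ih.trans h2

/-- the restriction inequality -/
lemma Tower.mult_le {U M : Subgroup G} (h : Tower U M) {θ : G → ℂ} (hθ : IsHeilbronn θ) :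
    ∀ (hUM : U ≤ M) (ρ : M →* ℂˣ) (a b : ℕ),
      ∑ᶠ g : M, θ g * (((ρ g)⁻¹ : ℂˣ) : ℂ) = a * Nat.card M →
      ∑ᶠ g : U, θ g * (((ρ (Subgroup.inclusion hUM g))⁻¹ : ℂˣ) : ℂ) = b * Nat.card U → a ≤ b := by
  have key : ∀ (V M : Subgroup G) (hVM : V ≤ M) (ρ : M →* ℂˣ) (a c : ℕ),
      ∑ᶠ g : M, θ g * (((ρ g)⁻¹ : ℂˣ) : ℂ) = a * Nat.card M →
      ∑ᶠ g : V, θ g * (((ρ (Subgroup.inclusion hVM g))⁻¹ : ℂˣ) : ℂ) = c * Nat.card V →
      (∀ θ' : M → ℂ, IsHeilbronn θ' → ∑ᶠ g : M, θ' g = a * Nat.card M →
        ∑ᶠ g : V.subgroupOf M, θ' g = c * Nat.card (V.subgroupOf M) → a ≤ c) → a ≤ c := by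
    intro V M hVM ρ a c ha hc hstep
    refine hstep (fun g => θ g * (((ρ g)⁻¹ : ℂˣ) : ℂ)) ((hθ.comp M.subtype).twist ρ) ha ?_
    let e := Subgroup.subgroupOfEquivOfLe hVM
    rw [Nat.card_congr e.toEquiv, ← hc]
    refine finsum_eq_of_bijective (fun g => e g) e.bijective fun g => ?_
    rfl
  induction h with
  | refl =>
    intro hUM ρ a b ha hb
    have h1 := ha.symm.trans hb
    have h2 : (Nat.card U : ℂ) ≠ 0 := by exact_mod_cast Nat.card_pos.ne'
    exact le_of_eq (by exact_mod_cast mul_right_cancel₀ h2 h1)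
  | @galois V M ht hVM hn ih =>
    intro hUM ρ a b ha hb
    obtain ⟨c, hc⟩ := hθ.mult V (ρ.comp (Subgroup.inclusion hVM))
    refine le_trans ?_ (ih ht.le (ρ.comp (Subgroup.inclusion hVM)) c b hc hb)
    have : Fintype M := Fintype.ofFinite _
    exact key V M hVM ρ a c ha hc fun θ' hθ' h1 h2 => step_galois hθ' (V.subgroupOf M) h1 h2
  | @solvable V M N C hN hC ht hVM hCV hsup hsol ih =>
    intro hUM ρ a b ha hb
    obtain ⟨c, hc⟩ := hθ.mult V (ρ.comp (Subgroup.inclusion hVM))
    refine le_trans ?_ (ih ht.le (ρ.comp (Subgroup.inclusion hVM)) c b hc hb)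
    have : Fintype M := Fintype.ofFinite _
    exact key V M hVM ρ a c ha hc fun θ' hθ' h1 h2 =>
      step_solvable hθ' (V.subgroupOf M) N C hCV hsup hsol h1 h2

/-- the order at `s₀` is the multiplicity -/
lemma order_of_mult {s₀ : ℂ} (A : ArtinData G s₀) (H : Subgroup G) (ψ : H →* ℂˣ) {n : ℕ}
    (h : ∑ᶠ h : H, (theta A.ord : G → ℂ) h * (((ψ h)⁻¹ : ℂˣ) : ℂ) = (n : ℂ) * Nat.card H) :
    meromorphicOrderAt (A.Lin H ψ) s₀ = (n : WithTop ℤ) := by
  classical
  choose! m hm using fun χ (hχ : χ ∈ Irr G) => exists_mult hχ H ψ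
  rw [theta_mult A.ord H ψ m hm] at h
  have hH : (Nat.card H : ℂ) ≠ 0 := by exact_mod_cast Nat.card_pos.ne'
  have h2 := mul_right_cancel₀ hH h
  have h3 : (∑ χ ∈ irrF G, (m χ : ℤ) * A.ord χ : ℤ) = (n : ℤ) := by exact_mod_cast h2
  rw [A.order_Lin H ψ m hm, h3]
  rfl

/-- Let `G` be the Galois group of `E/K₀` and let `K = E ^ M ⊆ L = E ^ U` be intermediate fields such
that `L` is reached from `K` by a tower whose steps are Galois extensions or extensions which become
solvable after base change to a Galois extension disjoint from them. Then the order of `ζ_K` is at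
most the order of `ζ_L` at every point `s₀ ≠ 1`, so `ζ_L / ζ_K` is entire; more generally this holds
for the L-functions of a linear character `ρ` of `M` over `K` and of `ρ|_U` over `L`. -/
theorem result (G : Type) [Group G] [Finite G] (U M : Subgroup G) (h : Tower U M) :
    ∃ hUM : U ≤ M, ∀ (s₀ : ℂ) (A : ArtinData G s₀) (ρ : M →* ℂˣ),
      meromorphicOrderAt (A.Lin M ρ) s₀
        ≤ meromorphicOrderAt (A.Lin U (ρ.comp (Subgroup.inclusion hUM))) s₀ := by
  refine ⟨h.le, fun s₀ A ρ => ?_⟩
  have hθ := A.isHeilbronn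
  obtain ⟨a, ha⟩ := hθ.mult M ρ
  obtain ⟨b, hb⟩ := hθ.mult U (ρ.comp (Subgroup.inclusion h.le))
  rw [order_of_mult A M ρ ha, order_of_mult A U _ hb]
  exact_mod_cast h.mult_le hθ h.le ρ a b ha hb

end Pool.Agent.Results.MP_9fc8a5_nt.SolvableAfterBaseChange
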