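import Pool.Agent.Q45.ML.FE

set_option autoImplicit false

/-!
# `ζ_L / ζ_K` is entire if and only if smoothed prime ideal sums are one-sided in the strip `1/2 ≤ Re ρ ≤ 1`

Both zeta functions are given by their Euler products, meromorphic continuation and functional equation (Hecke).
-/

namespace Pool.Agent.Results.MP_9fc8a5_nt.StripCriterion

open Filter Topology Asymptotics NumberField IsDedekindDomain NumberField.InfinitePlace
open Pool.Agent.Q45.ML

/-- the term at `(v, k)`, `k = z.2 + 1`, of the smoothed prime ideal sum at `ρ`: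
`1/(k N(v)^{kρ}) · e^{iγ k log N(v)/T} / Γ(1 + k log N(v)/T)` -/
noncomputable def term (F : Type) [Field F] [NumberField F] (ρ : ℂ) (γ T : ℝ)
    (z : HeightOneSpectrum (𝓞 F) × ℕ) : ℂ :=
  1 / ((z.2 + 1) * (Ideal.absNorm z.1.asIdeal : ℂ) ^ ((z.2 + 1) * ρ)) *
    (Complex.exp ((γ * ((z.2 + 1) * Real.log (Ideal.absNorm z.1.asIdeal : ℝ) / T) : ℝ) * Complex.I) /
      (Real.Gamma (1 + (z.2 + 1) * Real.log (Ideal.absNorm z.1.asIdeal : ℝ) / T) : ℂ))

/-- the smoothed prime ideal sum of `F` at `ρ` -/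
noncomputable def S (F : Type) [Field F] [NumberField F] (ρ : ℂ) (γ T : ℝ) : ℂ := ∑' z, term F ρ γ T z

/-- the constant `Λ(γ) = ∫_0^∞ (e^{-t} - e^{iγt}/Γ(1+t)) dt/t` -/
noncomputable def Lam (γ : ℝ) : ℂ := Pool.Agent.W187.UR.Lam γ

/-- the archimedean factor `|d_F|^{s/2} Γ_ℝ(s)^{r_1} Γ_ℂ(s)^{r_2}` -/
noncomputable def archFactor (F : Type) [Field F] [NumberField F] (s : ℂ) : ℂ :=
  (((|discr F| : ℤ)) : ℂ) ^ (s / 2) * Complex.Gammaℝ s ^ nrRealPlaces F * Complex.Gammaℂ s ^ nrComplexPlaces F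

/-- `Z` is the Dedekind zeta function of `F`: meromorphic on `ℂ`, Euler product for `Re s > 1`, functional equation
(near `1/2`, hence everywhere) -/
structure IsZeta (F : Type) [Field F] [NumberField F] (Z : ℂ → ℂ) : Prop where
  mero : ∀ z, MeromorphicAt Z z
  euler : ∀ s : ℂ, 1 < s.re →
    HasProd (fun v : HeightOneSpectrum (𝓞 F) => (1 - (Ideal.absNorm v.asIdeal : ℂ) ^ (-s))⁻¹) (Z s)
  fe : ∀ᶠ s in 𝓝[≠] (1 / 2 : ℂ), archFactor F s * Z s = archFactor F (1 - s) * Z (1 - s)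

section one

variable (F : Type) [Field F] [NumberField F]

theorem discr_ne : (((|discr F| : ℤ)) : ℂ) ≠ 0 := by
  have h := discr_ne_zero F
  have h1 : |discr F| ≠ 0 := abs_ne_zero.2 h
  exact_mod_cast h1

theorem archFactor_eq : archFactor F = arch (((|discr F| : ℤ)) : ℂ) (nrRealPlaces F + nrComplexPlaces F) (nrComplexPlaces F) := by
  funext s
  unfold archFactor arch
  rw [← Complex.Gammaℝ_mul_Gammaℝ_add_one, mul_pow, pow_add]
  ring

theorem hE : Eul 1 (fun v : HeightOneSpectrum (𝓞 F) => nrm v) (fun _ _ => (1 : ℂ)) 0 1 :=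
  ⟨zero_le_one, two_le_nrm, fun _ hσ => nrm_summable hσ, fun v _ => by simp⟩

theorem term_eq (ρ : ℂ) (γ T : ℝ) (z : HeightOneSpectrum (𝓞 F) × ℕ) :
    cterm (fun v : HeightOneSpectrum (𝓞 F) => nrm v) (fun _ (_ : Fin 1) => (1 : ℂ)) ρ γ T z = term F ρ γ T z := by
  unfold cterm term nrm
  simp

theorem S_eq (ρ : ℂ) (γ T : ℝ) :
    csum (fun v : HeightOneSpectrum (𝓞 F) => nrm v) (fun _ (_ : Fin 1) => (1 : ℂ)) ρ γ T = S F ρ γ T := by
  unfold csum S
  exact tsum_congr fun z => term_eq F ρ γ T z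

variable {F} {Z : ℂ → ℂ}

theorem IsZeta.law (h : IsZeta F Z) (ρ : ℂ) {γ : ℝ} (hγ : Real.pi / 2 < γ) :
    ∃ (m : ℤ) (r : ℂ), meromorphicOrderAt Z ρ = m ∧ Complex.exp r = meromorphicTrailingCoeffAt Z ρ ∧
      (fun T : ℝ => S F ρ γ T - (r - m * (Real.log T - Lam γ))) =O[atTop] (fun T : ℝ => 1 / T) := by
  obtain ⟨m, r, h1, h2, h3⟩ := (hE F).claw ρ (fun x _ => h.mero _) (fun s hs => by
    have h4 := h.euler s (by linarith)
    refine h4.congr_fun fun v => ?_
    simp [nrm]) hγ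
  simp only [S_eq] at h3
  exact ⟨m, r, h1, h2, h3⟩

end one

/-- a number field has at most as many infinite places, and at most as many complex places, as an extension -/
theorem places (K L : Type) [Field K] [NumberField K] [Field L] [NumberField L] [Algebra K L] :
    nrRealPlaces K + nrComplexPlaces K ≤ nrRealPlaces L + nrComplexPlaces L ∧
      nrComplexPlaces K ≤ nrComplexPlaces L := by
  classical
  have : Module.Finite K L := Module.Finite.of_restrictScalars_finite ℚ K L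
  have hs : Function.Surjective (fun w : InfinitePlace L => w.comap (algebraMap K L)) := comap_surjective
  constructor
  · rw [← card_eq_nrRealPlaces_add_nrComplexPlaces, ← card_eq_nrRealPlaces_add_nrComplexPlaces]
    exact Fintype.card_le_of_surjective _ hs
  · have h1 : Function.Surjective (fun w : {w : InfinitePlace L // IsComplex w ∧ IsComplex (w.comap (algebraMap K L))} =>
        (⟨w.1.comap (algebraMap K L), w.2.2⟩ : {v : InfinitePlace K // IsComplex v})) := by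
      rintro ⟨v, hv⟩
      obtain ⟨w, rfl⟩ := hs v
      exact ⟨⟨w, IsComplex.of_comap _ hv, hv⟩, rfl⟩
    refine (Fintype.card_le_of_surjective _ h1).trans ?_
    exact Fintype.card_subtype_mono _ _ fun w hw => hw.1

theorem result (K L : Type) [Field K] [NumberField K] [Field L] [NumberField L] [Algebra K L]
    (ZK ZL : ℂ → ℂ) (hK : IsZeta K ZK) (hL : IsZeta L ZL) {γ : ℝ} (hγ : Real.pi / 2 < γ) :
    (∀ (ρ : ℂ) (T : ℝ), 0 < T → (Summable fun z => ‖term K ρ γ T z‖) ∧ Summable fun z => ‖term L ρ γ T z‖) ∧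
    (∀ ρ : ℂ, ∃ (m : ℤ) (r : ℂ), meromorphicOrderAt (ZL / ZK) ρ = m ∧
      Complex.exp r = meromorphicTrailingCoeffAt (ZL / ZK) ρ ∧
      (fun T : ℝ => S L ρ γ T - S K ρ γ T - (r - m * (Real.log T - Lam γ))) =O[atTop] (fun T : ℝ => 1 / T) ∧
      List.TFAE [0 ≤ m, ∃ M : ℝ, ∀ᶠ T : ℝ in atTop, (S L ρ γ T - S K ρ γ T).re ≤ M,
        ∃ ε > 0, ∃ t : ℕ → ℝ, Tendsto t atTop atTop ∧
          ∀ i, (S L ρ γ (t i) - S K ρ γ (t i)).re ≤ (1 - ε) * Real.log (t i)]) ∧
    List.TFAE [∃ g : ℂ → ℂ, Differentiable ℂ g ∧ ∀ s : ℂ, 1 < s.re → g s = ZL s / ZK s,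
      ∀ ρ : ℂ, ∃ M : ℝ, ∀ᶠ T : ℝ in atTop, (S L ρ γ T - S K ρ γ T).re ≤ M,
      ∀ ρ : ℂ, 1 / 2 ≤ ρ.re → ρ.re ≤ 1 → ∃ ε > 0, ∃ t : ℕ → ℝ, Tendsto t atTop atTop ∧
        ∀ i, (S L ρ γ (t i) - S K ρ γ (t i)).re ≤ (1 - ε) * Real.log (t i)] := by
  have hQ : ∀ z, MeromorphicAt (ZL / ZK) z := fun z => (hL.mero z).div (hK.mero z)
  have key : ∀ ρ : ℂ, ∃ (m : ℤ) (r : ℂ), meromorphicOrderAt (ZL / ZK) ρ = m ∧
      Complex.exp r = meromorphicTrailingCoeffAt (ZL / ZK) ρ ∧
      (fun T : ℝ => S L ρ γ T - S K ρ γ T - (r - m * (Real.log T - Lam γ))) =O[atTop] (fun T : ℝ => 1 / T) := by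
    intro ρ
    obtain ⟨mL, rL, a1, a2, a3⟩ := hL.law ρ hγ
    obtain ⟨mK, rK, b1, b2, b3⟩ := hK.law ρ hγ
    refine ⟨mL - mK, rL - rK, ?_, ?_, law_sub a3 b3⟩
    · rw [meromorphicOrderAt_div (hL.mero ρ) (hK.mero ρ), a1, b1]
      rfl
    · rw [div_eq_mul_inv, MeromorphicAt.meromorphicTrailingCoeffAt_mul (hL.mero ρ) (hK.mero ρ).inv,
        meromorphicTrailingCoeffAt_inv, ← a2, ← b2, Complex.exp_sub, div_eq_mul_inv]
  have hpole : ∀ ρ : ℂ, ∀ (m : ℤ) (r : ℂ),
      (fun T : ℝ => S L ρ γ T - S K ρ γ T - (r - m * (Real.log T - Lam γ))) =O[atTop] (fun T : ℝ => 1 / T) →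
      List.TFAE [0 ≤ m, ∃ M : ℝ, ∀ᶠ T : ℝ in atTop, (S L ρ γ T - S K ρ γ T).re ≤ M,
        ∃ ε > 0, ∃ t : ℕ → ℝ, Tendsto t atTop atTop ∧
          ∀ i, (S L ρ γ (t i) - S K ρ γ (t i)).re ≤ (1 - ε) * Real.log (t i)] := fun ρ m r h =>
    pole_tfae (S := fun T => S L ρ γ T - S K ρ γ T) h
  -- analyticity of the Euler products
  have hne : ∀ s : ℂ, 1 < s.re → meromorphicOrderAt (ZL / ZK) s = 0 ∧ AnalyticAt ℂ (ZL / ZK) s := by
    intro s hs
    have hL1 := (hE L).euler_analytic (F := ZL) (fun s hs => by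
      have h4 := hL.euler s (by linarith)
      refine h4.congr_fun fun v => ?_
      simp [nrm]) (s := s) (by linarith)
    have hK1 := (hE K).euler_analytic (F := ZK) (fun s hs => by
      have h4 := hK.euler s (by linarith)
      refine h4.congr_fun fun v => ?_
      simp [nrm]) (s := s) (by linarith)
    have h3 : AnalyticAt ℂ (ZL / ZK) s := hL1.1.div hK1.1 hK1.2
    refine ⟨?_, h3⟩
    rw [h3.meromorphicOrderAt_eq, h3.analyticOrderAt_eq_zero.2 (div_ne_zero hL1.2 hK1.2)]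
    rfl
  refine ⟨fun ρ T hT => ⟨?_, ?_⟩, fun ρ => ?_, ?_⟩
  · have := (hE K).cterm_summable ρ γ hT
    simpa only [term_eq] using this
  · have := (hE L).cterm_summable ρ γ hT
    simpa only [term_eq] using this
  · obtain ⟨m, r, h1, h2, h3⟩ := key ρ
    exact ⟨m, r, h1, h2, h3, hpole ρ m r h3⟩
  · tfae_have 1 → 2 := by
      rintro ⟨g, hg, hgs⟩ ρ
      obtain ⟨m, r, h1, h2, h3⟩ := key ρ
      have h4 := order_eq_of_halfplane (F := g) (G := ZL / ZK) (fun z => (hg.analyticAt z).meromorphicAt) hQ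
        (σ := 1) (fun s hs => hgs s hs) ρ
      have h5 := (hg.analyticAt ρ).meromorphicOrderAt_nonneg
      rw [h4, h1] at h5
      have h6 : 0 ≤ m := by exact_mod_cast h5
      exact ((hpole ρ m r h3).out 0 1).1 h6
    tfae_have 2 → 3 := by
      intro h ρ _ _
      obtain ⟨m, r, h1, h2, h3⟩ := key ρ
      exact ((hpole ρ m r h3).out 1 2).1 (h ρ)
    tfae_have 3 → 1 := by
      intro h
      have hstrip : ∀ ρ : ℂ, 1 / 2 ≤ ρ.re → 0 ≤ meromorphicOrderAt (ZL / ZK) ρ := by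
        intro ρ hρ
        rcases le_or_gt ρ.re 1 with h1 | h1
        · obtain ⟨m, r, g1, g2, g3⟩ := key ρ
          have g4 := ((hpole ρ m r g3).out 0 2).2 (h ρ hρ h1)
          rw [g1]
          exact_mod_cast g4
        · rw [(hne ρ h1).1]
      have hall : ∀ ρ : ℂ, 0 ≤ meromorphicOrderAt (ZL / ZK) ρ := by
        intro ρ
        rcases le_or_gt (1 / 2) ρ.re with h1 | h1
        · exact hstrip ρ h1
        · have hp := places K L
          have hm : ∀ z, MeromorphicAt (archFactor L / archFactor K) z := fun z => by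
            rw [archFactor_eq, archFactor_eq]
            exact (arch_mero (discr_ne L) _ _ z).div (arch_mero (discr_ne K) _ _ z)
          refine order_ge_of_fe (Q := ZL / ZK) (Q' := ZL / ZK) (A := archFactor L / archFactor K)
            (A' := archFactor L / archFactor K) (w := 1) (z₀ := 1 / 2) hQ hQ hm hm ?_ ?_ ?_ ?_
          · filter_upwards [hL.fe, hK.fe] with s h2 h3
            simp only [Pi.div_apply]
            rw [div_mul_div_comm, div_mul_div_comm, h2, h3]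
          · rw [archFactor_eq, archFactor_eq]
            exact arch_div_order (discr_ne L) (discr_ne K) hp.1 hp.2 ρ
          · rw [archFactor_eq, archFactor_eq, arch_div_order_pos (discr_ne L) (discr_ne K) _ _ _ _
              (by simp; linarith)]
          · refine hstrip _ ?_
            simp
            linarith
      obtain ⟨G, hG1, hG2⟩ := exists_entire hQ hall
      exact ⟨G, hG1, fun s hs => hG2 s (hne s hs).2⟩
    tfae_finish

end Pool.Agent.Results.MP_9fc8a5_nt.StripCriterion
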